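import Pool.Agent.Work.MP_31941f_co.Avg
import Pool.Agent.Work.MP_31941f_co.Alg

/-!
A counterexample to the conjecture that true complexity equals algebraic complexity.

For the progression `x, x+y, x+2y, x+3y, x+4y, x+y^3-2y^2, x+y^3+2y, x+y^3+2y^2` every algebraic
relation has degree at most 3 in every coordinate (exactly 3 is attained at the term `x+4y`), but
no Gowers norm `U^(s+1)` with `s ≤ 3` of the function at the term `x+4y` controls the average.
-/

namespace Pool.Agent.Results.MP_31941f_co.Counterexample

open Pool.Agent.Work.MP_31941f_co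

theorem result :
    (∀ j, (exP j).coeff 0 = 0) ∧ Function.Injective (withZero exP) ∧
    (∀ j, AlgBound exP j 3) ∧ IsLeast {s : ℕ | AlgBound exP 4 s} 3 ∧
    ∀ s : ℕ, s ≤ 3 → ¬ Star exP 4 s := by
  refine ⟨fun j => ?_, fun j k h => ?_, algBound_three, isLeast_algBound, fun s hs => not_star hs⟩
  · fin_cases j <;> simp [exP]
  · have h1 : ∀ j, Polynomial.aeval (5 : ℤ) (withZero exP j) = pt 0 5 j := fun j => by
      rw [← pt_eq, zero_add]
    have h2 : pt (0 : ℤ) 5 j = pt 0 5 k := by rw [← h1, ← h1, h]
    revert h2
    fin_cases j <;> fin_cases k <;> simp [pt]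

end Pool.Agent.Results.MP_31941f_co.Counterexample
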